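import Pool.Agent.Lib.MP_a60258_s6.Iface

/-!
# Module SHF: the shift rule
-/

set_option autoImplicit false

open Finset

namespace A602.S6.H57

theorem ifac_shift {α : Type} [Fintype α] (n y : α → ℕ) :
    ifac (n + y) * (∏ a, (((n + y) a).descFactorial (n a) : ℝ)) = ifac y := by
  unfold ifac
  rw [← Finset.prod_mul_distrib]
  refine Finset.prod_congr rfl fun a _ => ?_
  have h := Nat.factorial_mul_descFactorial (n := (n + y) a) (k := n a) (by simp)
  have h1 : (n + y) a - n a = y a := by simp
  rw [h1] at h
  have h2 : ((y a).factorial : ℝ) ≠ 0 := by exact_mod_cast (Nat.factorial_pos _).ne'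
  have h3 : (((n + y) a).factorial : ℝ) ≠ 0 := by exact_mod_cast (Nat.factorial_pos _).ne'
  have h4 : ((y a).factorial : ℝ) * (((n + y) a).descFactorial (n a) : ℝ)
      = (((n + y) a).factorial : ℝ) := by exact_mod_cast h
  rw [← h4] at h3 ⊢
  field_simp

/-- Module SHF. -/
theorem shf : ShfStatement := by
  intro α _ _ n k F
  unfold Lf
  symm
  refine (Finset.sum_subset (s₁ := (Finset.piAntidiag (Finset.univ : Finset α) k).map
    ⟨fun y => n + y, add_right_injective n⟩) ?_ ?_).symm.trans ?_
  · intro x hx
    rw [Finset.mem_map] at hx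
    obtain ⟨y, hy, rfl⟩ := hx
    rw [Finset.mem_piAntidiag] at hy ⊢
    refine ⟨?_, fun a _ => Finset.mem_univ a⟩
    change ∑ a, (n + y) a = _
    simp only [Pi.add_apply]
    rw [Finset.sum_add_distrib, add_comm, hy.1]
  · intro x hx hx'
    have h : ∃ a, x a < n a := by
      by_contra hcon
      push Not at hcon
      apply hx'
      rw [Finset.mem_map]
      refine ⟨fun a => x a - n a, ?_, ?_⟩
      · rw [Finset.mem_piAntidiag] at hx ⊢
        refine ⟨?_, fun a _ => Finset.mem_univ a⟩
        have h1 : ∑ a, (x a - n a) + ∑ a, n a = ∑ a, x a := by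
          rw [← Finset.sum_add_distrib]
          exact Finset.sum_congr rfl fun a _ => Nat.sub_add_cancel (hcon a)
        change ∑ a, (x a - n a) = k
        have h2 := hx.1
        change ∑ a, x a = _ at h2
        omega
      · funext a
        exact Nat.add_sub_cancel' (hcon a)
    obtain ⟨a, ha⟩ := h
    have h3 : (∏ a, ((x a).descFactorial (n a) : ℝ)) = 0 :=
      Finset.prod_eq_zero (Finset.mem_univ a)
        (by exact_mod_cast Nat.descFactorial_eq_zero_iff_lt.2 ha)
    change ifac x * ((∏ a, ((x a).descFactorial (n a) : ℝ)) * F x) = 0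
    rw [h3, zero_mul, mul_zero]
  · rw [Finset.sum_map]
    refine Finset.sum_congr rfl fun y _ => ?_
    change ifac (n + y) * ((∏ a, (((n + y) a).descFactorial (n a) : ℝ)) * F (n + y)) = _
    rw [← mul_assoc, ifac_shift]

end A602.S6.H57
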